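import Pool.Agent.V11232.PG.Def

namespace Pool.Agent.V11232.PG

variable {T : Type}

/-- Reachable configurations. -/
def R (G : PG T) (u : List (G.N ⊕ T)) (r : G.Ψ) : Prop :=
  ∃ p, Relation.ReflTransGen G.Step ([Sum.inl G.S], p) (u, r)

theorem R_step {G : PG T} {u v : List (G.N ⊕ T)} {r q : G.Ψ} (h : R G u r)
    (hs : G.Step (u, r) (v, q)) : R G v q := by
  obtain ⟨p, h⟩ := h
  exact ⟨p, h.tail hs⟩

theorem three {W : Type} {u1 u2 α rest : List W} {b X : W} (h : u1 ++ b :: u2 = α ++ X :: rest) :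
    (∃ δ, α = u1 ++ b :: δ ∧ u2 = δ ++ X :: rest) ∨ (u1 = α ∧ b = X ∧ u2 = rest) ∨
      (∃ δ, u1 = α ++ X :: δ ∧ rest = δ ++ b :: u2) := by
  rcases List.append_eq_append_iff.mp h with ⟨a, h1, h2⟩ | ⟨c, h1, h2⟩
  · cases a with
    | nil =>
      simp only [List.append_nil, List.nil_append, List.cons.injEq] at h1 h2
      exact Or.inr (Or.inl ⟨h1.symm, h2.1, h2.2⟩)
    | cons x a =>
      simp only [List.cons_append, List.cons.injEq] at h2
      obtain ⟨rfl, h2⟩ := h2
      exact Or.inl ⟨a, h1, h2⟩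
  · cases c with
    | nil =>
      simp only [List.append_nil, List.nil_append, List.cons.injEq] at h1 h2
      exact Or.inr (Or.inl ⟨h1, h2.1.symm, h2.2.symm⟩)
    | cons x c =>
      simp only [List.cons_append, List.cons.injEq] at h2
      obtain ⟨rfl, h2⟩ := h2
      exact Or.inr (Or.inr ⟨c, h1, h2⟩)

/-- Edges. -/
abbrev E (G : PG T) : Type := {e : G.Ψ × G.Ψ // e.2 ∈ G.succ e.1}

/-- Edges applicable at a one-letter sentential form with a right-hand side of length at
least two. -/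
abbrev E0 (G : PG T) : Type :=
  {e : E G // R G [Sum.inl (G.lhs e.1.1)] e.1.1 ∧ 2 ≤ (G.rhs e.1.1).length}

/-- Nonterminals of the new grammar. -/
inductive NN (G : PG T) : Type
  | S
  | A
  | P (X Y : G.N ⊕ T) (r : G.Ψ)
  | old (n : G.N)

/-- Labels of the new grammar. -/
inductive LL (G : PG T) : Type
  | r0
  | plain (X Y : G.N ⊕ T) (e : E G)
  | app (r : G.Ψ)
  | atP (X : G.N ⊕ T) (e : E G)
  | atA (Y : G.N ⊕ T) (e : E G)
  | expA (r : G.Ψ)
  | fin (X Y : G.N ⊕ T) (r : G.Ψ)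
  | finA (X : G.N ⊕ T)
  | init (e : E0 G)
  | one (a : {a : T // [a] ∈ G.lang})

/-- Embedding of symbols. -/
def emb {G : PG T} : G.N ⊕ T → NN G ⊕ T
  | Sum.inl n => Sum.inl (NN.old n)
  | Sum.inr t => Sum.inr t

/-- Left-hand sides. -/
def lhs' {G : PG T} : LL G → NN G
  | .r0 => .A
  | .plain X Y e => .P X Y e.1.1
  | .app r => .old (G.lhs r)
  | .atP X e => .P X (Sum.inl (G.lhs e.1.1)) e.1.1
  | .atA Y e => .P (Sum.inl (G.lhs e.1.1)) Y e.1.1
  | .expA _ => .A
  | .fin X Y r => .P X Y r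
  | .finA _ => .A
  | .init _ => .S
  | .one _ => .S

/-- Right-hand side for the partner symbol: the first symbol is absorbed. -/
def rhsP {G : PG T} (X : G.N ⊕ T) (q : G.Ψ) : List (G.N ⊕ T) → List (NN G ⊕ T)
  | [] => [Sum.inl .A]
  | y :: ys => Sum.inl (.P X y q) :: ys.map emb

/-- Right-hand side of the initial rules. -/
def rhsI {G : PG T} (q : G.Ψ) : List (G.N ⊕ T) → List (NN G ⊕ T)
  | X :: Y :: ys => Sum.inl .A :: Sum.inl (.P X Y q) :: ys.map emb
  | _ => [Sum.inl .A]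

/-- Right-hand side of the update of the first component. -/
def rhsA {G : PG T} (Y : G.N ⊕ T) (q : G.Ψ) : List (G.N ⊕ T) → List (NN G ⊕ T)
  | [] => [Sum.inl .A]
  | y :: _ => [Sum.inl (.P y Y q)]

/-- Right-hand sides. -/
def rhs' {G : PG T} : LL G → List (NN G ⊕ T)
  | .r0 => [Sum.inl .A]
  | .plain X Y e => [Sum.inl (.P X Y e.1.2)]
  | .app r => (G.rhs r).map emb
  | .atP X e => rhsP X e.1.2 (G.rhs e.1.1)
  | .atA Y e => rhsA Y e.1.2 (G.rhs e.1.1)
  | .expA r => Sum.inl .A :: (G.rhs r).tail.map emb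
  | .fin _ Y _ => [emb Y]
  | .finA X => [emb X]
  | .init e => rhsI e.1.1.2 (G.rhs e.1.1.1)
  | .one a => [Sum.inr a.1]

/-- The entry labels. -/
inductive Entry {G : PG T} : LL G → Prop
  | plain (X Y : G.N ⊕ T) (e : E G) : Entry (.plain X Y e)
  | atP (X : G.N ⊕ T) (e : E G) : Entry (.atP X e)
  | atA (Y : G.N ⊕ T) (e : E G) : Entry (.atA Y e)
  | fin (X Y : G.N ⊕ T) (r : G.Ψ) : Entry (.fin X Y r)

/-- Success fields. -/
def succ' {G : PG T} : LL G → Set (LL G)
  | .r0 => {l | Entry l}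
  | .plain _ _ e => {.app e.1.1}
  | .app _ => {.r0}
  | .atP _ _ => {.r0}
  | .atA _ e => {.expA e.1.1}
  | .expA _ => {.r0}
  | .fin X _ _ => {.finA X}
  | .finA _ => {.r0}
  | .init _ => {.r0}
  | .one _ => {.r0}

theorem finite_NN [Finite T] (G : PG T) : Finite (NN G) := by
  have := G.finN
  have := G.finΨ
  let f : NN G → (Unit ⊕ Unit) ⊕ (((G.N ⊕ T) × (G.N ⊕ T) × G.Ψ) ⊕ G.N) := fun x => match x with
    | .S => Sum.inl (Sum.inl ())
    | .A => Sum.inl (Sum.inr ())
    | .P X Y r => Sum.inr (Sum.inl (X, Y, r))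
    | .old n => Sum.inr (Sum.inr n)
  refine Finite.of_injective f ?_
  intro x y h
  cases x <;> cases y <;> simp_all [f]

theorem finite_LL [Finite T] (G : PG T) : Finite (LL G) := by
  have := G.finN
  have := G.finΨ
  let f : LL G → (Unit ⊕ ((G.N ⊕ T) × (G.N ⊕ T) × E G)) ⊕ ((G.Ψ ⊕ ((G.N ⊕ T) × E G)) ⊕
    (((G.N ⊕ T) × E G) ⊕ (G.Ψ ⊕ (((G.N ⊕ T) × (G.N ⊕ T) × G.Ψ) ⊕ ((G.N ⊕ T) ⊕
      (E0 G ⊕ {a : T // [a] ∈ G.lang})))))) := fun x => match x with
    | .r0 => Sum.inl (Sum.inl ())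
    | .plain X Y e => Sum.inl (Sum.inr (X, Y, e))
    | .app r => Sum.inr (Sum.inl (Sum.inl r))
    | .atP X e => Sum.inr (Sum.inl (Sum.inr (X, e)))
    | .atA X e => Sum.inr (Sum.inr (Sum.inl (X, e)))
    | .expA r => Sum.inr (Sum.inr (Sum.inr (Sum.inl r)))
    | .fin X Y r => Sum.inr (Sum.inr (Sum.inr (Sum.inr (Sum.inl (X, Y, r)))))
    | .finA X => Sum.inr (Sum.inr (Sum.inr (Sum.inr (Sum.inr (Sum.inl X)))))
    | .init e => Sum.inr (Sum.inr (Sum.inr (Sum.inr (Sum.inr (Sum.inr (Sum.inl e))))))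
    | .one a => Sum.inr (Sum.inr (Sum.inr (Sum.inr (Sum.inr (Sum.inr (Sum.inr a))))))
  refine Finite.of_injective f ?_
  intro x y h
  cases x <;> cases y <;> simp_all [f]

/-- The new grammar. -/
def GG [Finite T] (G : PG T) : PG T where
  N := NN G
  Ψ := LL G
  finN := finite_NN G
  finΨ := finite_LL G
  lhs := lhs'
  rhs := rhs'
  succ := succ'
  S := .S

theorem GG_propagating [Finite T] (G : PG T) (hG : G.Propagating) : (GG G).Propagating := by
  intro r
  change rhs' r ≠ []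
  cases r with
  | r0 => simp [rhs']
  | plain X Y e => simp [rhs']
  | app r => simp [rhs', hG r]
  | atP X e =>
    have := hG e.1.1
    simp only [rhs']
    cases h : G.rhs e.1.1 with
    | nil => exact absurd h this
    | cons y ys => simp [rhsP]
  | atA Y e =>
    have := hG e.1.1
    simp only [rhs']
    cases h : G.rhs e.1.1 with
    | nil => exact absurd h this
    | cons y ys => simp [rhsA]
  | expA r => simp [rhs']
  | fin X Y r => simp [rhs']
  | finA X => simp [rhs']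
  | init e =>
    simp only [rhs']
    cases h : G.rhs e.1.1.1 with
    | nil => simp [rhsI]
    | cons X ys => cases ys with
      | nil => simp [rhsI]
      | cons Y ys => simp [rhsI]
  | one a => simp [rhs']

theorem GG_oneND [Finite T] (G : PG T) : (GG G).OneND := by
  have key : ∀ r : LL G, 2 ≤ (succ' r).encard → r = .r0 := by
    intro r h
    cases r with
    | r0 => rfl
    | _ =>
      exfalso
      simp only [succ', Set.encard_singleton] at h
      exact absurd h (by norm_num)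
  intro r r' h h'
  rw [key r h, key r' h']

end Pool.Agent.V11232.PG
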