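import Mathlib

/-!
Programmed grammars without appearance checking.
-/

namespace Pool.Agent.V11232.PG

/-- A programmed grammar over the terminal alphabet `T`: for each label `r` the rule
`r : lhs r → rhs r` with success field `succ r`. -/
structure PG (T : Type) where
  N : Type
  Ψ : Type
  finN : Finite N
  finΨ : Finite Ψ
  lhs : Ψ → N
  rhs : Ψ → List (N ⊕ T)
  succ : Ψ → Set Ψ
  S : N

variable {T : Type}

/-- The derivation relation `(u, r) ⇒ (v, q)`. -/
def PG.Step (G : PG T) (c d : List (G.N ⊕ T) × G.Ψ) : Prop :=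
  ∃ u1 u2, c.1 = u1 ++ Sum.inl (G.lhs c.2) :: u2 ∧ d.1 = u1 ++ (G.rhs c.2 ++ u2) ∧
    d.2 ∈ G.succ c.2

/-- The generated language. -/
def PG.lang (G : PG T) : Language T :=
  {w | ∃ p q, Relation.ReflTransGen G.Step ([Sum.inl G.S], p) (w.map Sum.inr, q)}

/-- Propagating grammars. -/
def PG.Propagating (G : PG T) : Prop := ∀ r, G.rhs r ≠ []

/-- One-ND rule normal form: at most one rule has at least two successors. -/
def PG.OneND (G : PG T) : Prop :=
  ∀ r r', 2 ≤ (G.succ r).encard → 2 ≤ (G.succ r').encard → r = r'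

end Pool.Agent.V11232.PG
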