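import Pool.Agent.V11232.PG.Basic

namespace Pool.Agent.V11232.PG

variable {T : Type} [Finite T]

/-- Embedding of words. -/
abbrev em {G : PG T} (u : List (G.N ⊕ T)) : List (NN G ⊕ T) := u.map emb

/-- Sentential forms of the new grammar. -/
def FF {G : PG T} (α : List (G.N ⊕ T)) (X : G.N ⊕ T) (β : List (G.N ⊕ T)) (Y : G.N ⊕ T)
    (γ : List (G.N ⊕ T)) (r : G.Ψ) : List (NN G ⊕ T) :=
  em α ++ Sum.inl .A :: (em β ++ Sum.inl (.P X Y r) :: em γ)

theorem mkStep {G : PG T} (l l' : LL G) (u1 u2 u v : List (NN G ⊕ T))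
    (h1 : u = u1 ++ Sum.inl (lhs' l) :: u2) (h2 : v = u1 ++ (rhs' l ++ u2)) (h3 : l' ∈ succ' l) :
    (GG G).Step (u, l) (v, l') := ⟨u1, u2, h1, h2, h3⟩

/-- Reachability in the new grammar. -/
abbrev R' {G : PG T} (u : List (NN G ⊕ T)) (l : LL G) : Prop := R (GG G) u l

theorem R'_step {G : PG T} {l l' : LL G} {u v : List (NN G ⊕ T)} (hR : R' u l)
    (u1 u2 : List (NN G ⊕ T))
    (h1 : u = u1 ++ Sum.inl (lhs' l) :: u2) (h2 : v = u1 ++ (rhs' l ++ u2)) (h3 : l' ∈ succ' l) :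
    R' v l' := R_step hR (mkStep l l' u1 u2 u v h1 h2 h3)

/-- From the main label to an entry label. -/
theorem R'_entry {G : PG T} {α β γ : List (G.N ⊕ T)} {X Y : G.N ⊕ T} {r : G.Ψ}
    (h : R' (FF α X β Y γ r) (LL.r0 : LL G)) (l : LL G) (hl : Entry l) :
    R' (FF α X β Y γ r) l :=
  R'_step h (em α) (em β ++ Sum.inl (.P X Y r) :: em γ) rfl rfl hl

theorem fwd {G : PG T} (hG : G.Propagating) {c : List (G.N ⊕ T) × G.Ψ} {p : G.Ψ}
    (h : Relation.ReflTransGen G.Step ([Sum.inl G.S], p) c) : c.1 ≠ [] ∧ (2 ≤ c.1.length →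
      ∃ α X β Y γ, c.1 = α ++ X :: (β ++ Y :: γ) ∧ R' (FF α X β Y γ c.2) (LL.r0 : LL G)) := by
  induction h with
  | refl => exact ⟨by simp, fun h => by simp at h⟩
  | tail hcd hs ih =>
    rename_i c d
    obtain ⟨u1, u2, h1, h2, h3⟩ := hs
    have hne := hG c.2
    obtain ⟨y, ys, hy⟩ : ∃ y ys, G.rhs c.2 = y :: ys := by
      cases h : G.rhs c.2 with
      | nil => exact absurd h hne
      | cons y ys => exact ⟨y, ys, rfl⟩
    let e : E G := ⟨(c.2, d.2), h3⟩
    refine ⟨by rw [h2, hy]; simp, fun hlen => ?_⟩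
    by_cases h1len : 2 ≤ c.1.length
    · obtain ⟨α, X, β, Y, γ, hc, hR⟩ := ih.2 h1len
      have h5 : u1 ++ Sum.inl (G.lhs c.2) :: u2 = α ++ X :: (β ++ Y :: γ) := by rw [← h1, hc]
      -- the plain case, given the position
      have hplain : ∀ (α' β' γ' : List (G.N ⊕ T)) (v1 v2 : List (NN G ⊕ T)),
          FF α X β Y γ d.2 = v1 ++ Sum.inl (.old (G.lhs c.2)) :: v2 →
          FF α' X β' Y γ' d.2 = v1 ++ (em (G.rhs c.2) ++ v2) →
          R' (FF α' X β' Y γ' d.2) (LL.r0 : LL G) := by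
        intro α' β' γ' v1 v2 e1 e2
        have g1 := R'_entry hR (.plain X Y e) (Entry.plain X Y e)
        have g2 : R' (FF α X β Y γ d.2) (LL.app c.2 : LL G) :=
          R'_step g1 (em α ++ Sum.inl .A :: em β) (em γ) (by simp [FF, lhs', e])
            (by simp [FF, rhs', e]) rfl
        exact R'_step g2 v1 v2 e1 e2 rfl
      rcases three h5 with ⟨δ, h6, h7⟩ | ⟨h6, h7, h8⟩ | ⟨δ, h6, h7⟩
      · -- in α
        refine ⟨u1 ++ G.rhs c.2 ++ δ, X, β, Y, γ, by rw [h2, h7]; simp, ?_⟩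
        apply hplain _ _ _ (em u1) (em δ ++ Sum.inl .A :: (em β ++ Sum.inl (.P X Y d.2) :: em γ))
        · simp [FF, h6, emb]
        · simp [FF]
      · -- at X
        refine ⟨α, y, ys ++ β, Y, γ, by rw [h2, hy, h6, h8]; simp, ?_⟩
        have g1 := R'_entry hR (.atA Y e) (Entry.atA Y e)
        have g2 : R' (FF α y β Y γ d.2) (LL.expA c.2 : LL G) :=
          R'_step g1 (em α ++ Sum.inl .A :: em β) (em γ) (by simp [FF, lhs', e, h7])
            (by simp [FF, rhs', e, hy, rhsA]) rfl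
        exact R'_step g2 (em α) (em β ++ Sum.inl (.P y Y d.2) :: em γ) (by simp [FF, lhs'])
          (by simp [FF, rhs', hy]) rfl
      · rcases three h7.symm with ⟨δ', h8, h9⟩ | ⟨h8, h9, h10⟩ | ⟨δ', h8, h9⟩
        · -- in β
          refine ⟨α, X, δ ++ G.rhs c.2 ++ δ', Y, γ, by rw [h2, h6, h9]; simp, ?_⟩
          apply hplain _ _ _ (em α ++ Sum.inl .A :: em δ)
            (em δ' ++ Sum.inl (.P X Y d.2) :: em γ)
          · simp [FF, h8, emb]
          · simp [FF]
        · -- at Y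
          refine ⟨α, X, β, y, ys ++ γ, by rw [h2, hy, h6, h8, h10]; simp, ?_⟩
          have g1 := R'_entry hR (.atP X e) (Entry.atP X e)
          exact R'_step g1 (em α ++ Sum.inl .A :: em β) (em γ) (by simp [FF, lhs', e, h9])
            (by simp [FF, rhs', e, hy, rhsP]) rfl
        · -- in γ
          refine ⟨α, X, β, Y, δ' ++ G.rhs c.2 ++ u2, by rw [h2, h6, h8]; simp, ?_⟩
          apply hplain _ _ _ (em α ++ Sum.inl .A :: (em β ++ Sum.inl (.P X Y d.2) :: em δ'))
            (em u2)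
          · simp [FF, h9, emb]
          · simp [FF]
    · -- the previous form has length one
      have hu : u1 = [] ∧ u2 = [] := by
        have := congrArg List.length h1
        rw [List.length_append, List.length_cons] at this
        constructor <;> apply List.length_eq_zero_iff.mp <;> omega
      obtain ⟨rfl, rfl⟩ := hu
      have hd : d.1 = G.rhs c.2 := by rw [h2]; simp
      have hR0 : R G [Sum.inl (G.lhs c.2)] c.2 := by
        refine ⟨p, ?_⟩
        have : c = ([Sum.inl (G.lhs c.2)], c.2) := Prod.ext (by rw [h1]; rfl) rfl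
        rw [← this]; exact hcd
      rw [hd] at hlen
      let e0 : E0 G := ⟨e, hR0, hlen⟩
      obtain ⟨X, Y, zs, hz⟩ : ∃ X Y zs, G.rhs c.2 = X :: Y :: zs := by
        cases h : G.rhs c.2 with
        | nil => rw [h] at hlen; simp at hlen
        | cons X ys => cases ys with
          | nil => rw [h] at hlen; simp at hlen
          | cons Y zs => exact ⟨X, Y, zs, rfl⟩
      refine ⟨[], X, [], Y, zs, by rw [hd, hz]; rfl, ?_⟩
      have g0 : R' [Sum.inl (NN.S : NN G)] (LL.init e0) := ⟨LL.init e0, Relation.ReflTransGen.refl⟩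
      refine R'_step g0 [] [] (by simp [lhs']) ?_ rfl
      simp [FF, rhs', e0, e, hz, rhsI]

/-- The invariant. -/
inductive Inv {G : PG T} : List (NN G ⊕ T) × LL G → Prop
  | start (l : LL G) : Inv ([Sum.inl .S], l)
  | main (l : LL G) (hl : l = .r0 ∨ Entry l) (α : List (G.N ⊕ T)) (X : G.N ⊕ T)
      (β : List (G.N ⊕ T)) (Y : G.N ⊕ T) (γ : List (G.N ⊕ T)) (r : G.Ψ)
      (h : R G (α ++ X :: (β ++ Y :: γ)) r) : Inv (FF α X β Y γ r, l)
  | app (e : E G) (α : List (G.N ⊕ T)) (X : G.N ⊕ T)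
      (β : List (G.N ⊕ T)) (Y : G.N ⊕ T) (γ : List (G.N ⊕ T))
      (h : R G (α ++ X :: (β ++ Y :: γ)) e.1.1) : Inv (FF α X β Y γ e.1.2, .app e.1.1)
  | expA (e : E G) (y : G.N ⊕ T) (ys : List (G.N ⊕ T)) (hy : G.rhs e.1.1 = y :: ys)
      (α : List (G.N ⊕ T)) (β : List (G.N ⊕ T)) (Y : G.N ⊕ T) (γ : List (G.N ⊕ T))
      (h : R G (α ++ Sum.inl (G.lhs e.1.1) :: (β ++ Y :: γ)) e.1.1) :
      Inv (FF α y β Y γ e.1.2, .expA e.1.1)
  | finA (α : List (G.N ⊕ T)) (X : G.N ⊕ T) (δ : List (G.N ⊕ T)) (r : G.Ψ)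
      (h : R G (α ++ X :: δ) r) : Inv (em α ++ Sum.inl .A :: em δ, .finA X)
  | done (u : List (G.N ⊕ T)) (r : G.Ψ) (h : R G u r) : Inv (em u, .r0)

theorem emb_ne_A {G : PG T} (x : G.N ⊕ T) : (emb x : NN G ⊕ T) ≠ Sum.inl .A := by
  cases x <;> simp [emb]
theorem emb_ne_S {G : PG T} (x : G.N ⊕ T) : (emb x : NN G ⊕ T) ≠ Sum.inl .S := by
  cases x <;> simp [emb]
theorem emb_ne_P {G : PG T} (x X Y : G.N ⊕ T) (r : G.Ψ) :
    (emb x : NN G ⊕ T) ≠ Sum.inl (.P X Y r) := by
  cases x <;> simp [emb]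

/-- Splitting an embedded word at an old nonterminal. -/
theorem em_split {G : PG T} {u : List (G.N ⊕ T)} {v1 v2 : List (NN G ⊕ T)} {b : NN G ⊕ T}
    (h : em u = v1 ++ b :: v2) : ∃ u1 x u2, u = u1 ++ x :: u2 ∧ v1 = em u1 ∧ b = emb x ∧
      v2 = em u2 := by
  obtain ⟨s, t, h1, h2, h3⟩ := List.map_eq_append_iff.mp h
  obtain ⟨x, t', h4, h5, h6⟩ := List.map_eq_cons_iff.mp h3
  exact ⟨s, x, t', by rw [h1, h4], h2.symm, h5.symm, h6.symm⟩

theorem not_in_em {G : PG T} {u : List (G.N ⊕ T)} {v1 v2 : List (NN G ⊕ T)} {b : NN G ⊕ T}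
    (hb : ∀ x : G.N ⊕ T, emb x ≠ b) (h : em u = v1 ++ b :: v2) : False := by
  obtain ⟨_, x, _, _, _, hx, _⟩ := em_split h
  exact hb x hx.symm

/-- The unique position of `A`. -/
theorem at_A {G : PG T} {α β γ : List (G.N ⊕ T)} {X Y : G.N ⊕ T} {r : G.Ψ}
    {u1 u2 : List (NN G ⊕ T)} (h : FF α X β Y γ r = u1 ++ Sum.inl .A :: u2) :
    u1 = em α ∧ u2 = em β ++ Sum.inl (.P X Y r) :: em γ := by
  rcases three h.symm with ⟨δ, h1, h2⟩ | ⟨h1, -, h2⟩ | ⟨δ, h1, h2⟩
  · exact (not_in_em (emb_ne_A (G := G)) h1).elim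
  · exact ⟨h1, h2⟩
  · exfalso
    rcases three h2.symm with ⟨δ', h3, h4⟩ | ⟨h3, h4, h5⟩ | ⟨δ', h3, h4⟩
    · exact not_in_em (emb_ne_A (G := G)) h3
    · simp at h4
    · exact not_in_em (emb_ne_A (G := G)) h4

/-- The unique position of the partner symbol. -/
theorem at_P {G : PG T} {α β γ : List (G.N ⊕ T)} {X Y X' Y' : G.N ⊕ T} {r r' : G.Ψ}
    {u1 u2 : List (NN G ⊕ T)} (h : FF α X β Y γ r = u1 ++ Sum.inl (.P X' Y' r') :: u2) :
    u1 = em α ++ Sum.inl .A :: em β ∧ u2 = em γ ∧ X' = X ∧ Y' = Y ∧ r' = r := by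
  rcases three h.symm with ⟨δ, h1, h2⟩ | ⟨h1, h2, h3⟩ | ⟨δ, h1, h2⟩
  · exact (not_in_em (fun x => emb_ne_P x X' Y' r') h1).elim
  · simp at h2
  · rcases three h2.symm with ⟨δ', h3, h4⟩ | ⟨h3, h4, h5⟩ | ⟨δ', h3, h4⟩
    · exact (not_in_em (fun x => emb_ne_P x X' Y' r') h3).elim
    · simp at h4
      obtain ⟨rfl, rfl, rfl⟩ := h4
      subst h3
      exact ⟨h1, h5, rfl, rfl, rfl⟩
    · exact (not_in_em (fun x => emb_ne_P x X' Y' r') h4).elim

theorem em_inj {G : PG T} {u v : List (G.N ⊕ T)} (h : em u = em v) : u = v := by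
  have hinj : Function.Injective (emb : G.N ⊕ T → NN G ⊕ T) := by
    intro x y h
    cases x <;> cases y <;> simp_all [emb]
  exact List.map_injective_iff.mpr hinj h

theorem inv_step {G : PG T} (hG : G.Propagating) {c d : List (NN G ⊕ T) × LL G} (hc : Inv c)
    (hs : (GG G).Step c d) : Inv d := by
  have hs' : ∃ u1 u2 : List (NN G ⊕ T), c.1 = u1 ++ Sum.inl (lhs' c.2) :: u2 ∧
      d.1 = u1 ++ (rhs' c.2 ++ u2) ∧ d.2 ∈ succ' c.2 := hs
  obtain ⟨u1, u2, h1, h2, h3⟩ := hs'
  obtain ⟨d1, d2⟩ := d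
  simp only at h2 h3
  subst h2
  cases hc with
  | start l =>
    simp only at h1 h3
    have h4 : u1 = [] ∧ (Sum.inl NN.S : NN G ⊕ T) = Sum.inl (lhs' l) ∧ u2 = [] := by
      cases u1 with
      | nil => simp at h1; simp [h1]
      | cons x u1 => simp at h1
    obtain ⟨rfl, h4, rfl⟩ := h4
    cases l with
    | init e =>
      obtain ⟨e, hR0, hlen⟩ := e
      obtain ⟨X, Y, zs, hz⟩ : ∃ X Y zs, G.rhs e.1.1 = X :: Y :: zs := by
        cases h : G.rhs e.1.1 with
        | nil => rw [h] at hlen; simp at hlen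
        | cons X ys => cases ys with
          | nil => rw [h] at hlen; simp at hlen
          | cons Y zs => exact ⟨X, Y, zs, rfl⟩
      have : d2 = .r0 := h3
      subst this
      have hR1 : R G ([] ++ X :: ([] ++ Y :: zs)) e.1.2 := by
        refine R_step hR0 ⟨[], [], rfl, ?_, e.2⟩
        change [] ++ X :: ([] ++ Y :: zs) = [] ++ (G.rhs e.1.1 ++ [])
        rw [hz]; simp
      have := Inv.main .r0 (Or.inl rfl) [] X [] Y zs e.1.2 hR1
      have e5 : FF [] X [] Y zs e.1.2 = [] ++ (rhs' (.init ⟨e, hR0, hlen⟩) ++ []) := by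
        simp [FF, rhs', hz, rhsI]
      rw [e5] at this; exact this
    | one a =>
      obtain ⟨a, ha⟩ := a
      have : d2 = .r0 := h3
      subst this
      obtain ⟨p, q, hpq⟩ := ha
      have := Inv.done (G := G) [Sum.inr a] q ⟨p, hpq⟩
      exact this
    | _ => simp [lhs'] at h4
  | main l hl α X β Y γ r h =>
    rcases hl with rfl | hl
    · obtain ⟨g1, g2⟩ := at_A h1
      subst g1 g2
      exact Inv.main d2 (Or.inr h3) α X β Y γ r h
    · cases hl with
      | plain X' Y' e =>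
        obtain ⟨g1, g2, rfl, rfl, g5⟩ := at_P h1
        subst g1 g2 g5
        have : d2 = .app e.1.1 := h3
        subst this
        have := Inv.app e α X' β Y' γ h
        have e5 : FF α X' β Y' γ e.1.2 =
            em α ++ Sum.inl NN.A :: em β ++ (rhs' (.plain X' Y' e) ++ em γ) := by
          simp [FF, rhs']
        rw [e5] at this; exact this
      | atP X' e =>
        obtain ⟨g1, g2, rfl, g4, g5⟩ := at_P h1
        subst g1 g2 g4 g5
        have : d2 = .r0 := h3
        subst this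
        obtain ⟨y, ys, hy⟩ : ∃ y ys, G.rhs e.1.1 = y :: ys := by
          cases h : G.rhs e.1.1 with
          | nil => exact absurd h (hG _)
          | cons y ys => exact ⟨y, ys, rfl⟩
        have hR1 : R G (α ++ X' :: (β ++ y :: (ys ++ γ))) e.1.2 := by
          refine R_step h ⟨α ++ X' :: β, γ, by simp, ?_, e.2⟩
          change _ = _ ++ (G.rhs e.1.1 ++ γ)
          rw [hy]; simp
        have := Inv.main .r0 (Or.inl rfl) α X' β y (ys ++ γ) e.1.2 hR1
        have e5 : FF α X' β y (ys ++ γ) e.1.2 =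
            em α ++ Sum.inl NN.A :: em β ++ (rhs' (.atP X' e) ++ em γ) := by
          simp [FF, rhs', hy, rhsP]
        rw [e5] at this; exact this
      | atA Y' e =>
        obtain ⟨g1, g2, g3, rfl, g5⟩ := at_P h1
        subst g1 g2 g3 g5
        have : d2 = .expA e.1.1 := h3
        subst this
        obtain ⟨y, ys, hy⟩ : ∃ y ys, G.rhs e.1.1 = y :: ys := by
          cases h : G.rhs e.1.1 with
          | nil => exact absurd h (hG _)
          | cons y ys => exact ⟨y, ys, rfl⟩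
        have := Inv.expA e y ys hy α β Y' γ h
        have e5 : FF α y β Y' γ e.1.2 =
            em α ++ Sum.inl NN.A :: em β ++ (rhs' (.atA Y' e) ++ em γ) := by
          simp [FF, rhs', hy, rhsA]
        rw [e5] at this; exact this
      | fin X' Y' r' =>
        obtain ⟨g1, g2, rfl, rfl, g5⟩ := at_P h1
        subst g1 g2 g5
        have : d2 = .finA X' := h3
        subst this
        have := Inv.finA α X' (β ++ Y' :: γ) r' h
        have e5 : em α ++ Sum.inl NN.A :: em (β ++ Y' :: γ) =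
            em α ++ Sum.inl NN.A :: em β ++ (rhs' (.fin X' Y' r' : LL G) ++ em γ) := by
          simp [rhs', em]
        rw [e5] at this; exact this
  | app e α X β Y γ h =>
    have : d2 = .r0 := h3
    subst this
    -- the result, given the position
    rcases three h1.symm with ⟨δ, h4, h5⟩ | ⟨-, h5, -⟩ | ⟨δ, h4, h5⟩
    · -- in α
      obtain ⟨α1, x, α2, rfl, rfl, hx, rfl⟩ := em_split h4
      have hx' : x = Sum.inl (G.lhs e.1.1) := by
        cases x <;> simp_all [emb, lhs']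
      subst hx' h5
      have hR1 : R G ((α1 ++ G.rhs e.1.1 ++ α2) ++ X :: (β ++ Y :: γ)) e.1.2 := by
        refine R_step h ⟨α1, α2 ++ X :: (β ++ Y :: γ), by simp, by simp, e.2⟩
      have := Inv.main .r0 (Or.inl rfl) _ X β Y γ e.1.2 hR1
      have e5 : FF (α1 ++ G.rhs e.1.1 ++ α2) X β Y γ e.1.2 = em α1 ++ (rhs' (.app e.1.1) ++
          (em α2 ++ Sum.inl NN.A :: (em β ++ Sum.inl (NN.P X Y e.1.2) :: em γ))) := by
        simp [FF, rhs']
      rw [e5] at this; exact this
    · simp [lhs'] at h5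
    · rcases three h5.symm with ⟨δ', h6, h7⟩ | ⟨-, h7, -⟩ | ⟨δ', h6, h7⟩
      · -- in β
        obtain ⟨β1, x, β2, rfl, rfl, hx, rfl⟩ := em_split h6
        have hx' : x = Sum.inl (G.lhs e.1.1) := by
          cases x <;> simp_all [emb, lhs']
        subst hx' h7 h4
        have hR1 : R G (α ++ X :: ((β1 ++ G.rhs e.1.1 ++ β2) ++ Y :: γ)) e.1.2 := by
          refine R_step h ⟨α ++ X :: β1, β2 ++ Y :: γ, by simp, by simp, e.2⟩
        have := Inv.main .r0 (Or.inl rfl) α X _ Y γ e.1.2 hR1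
        have e5 : FF α X (β1 ++ G.rhs e.1.1 ++ β2) Y γ e.1.2 =
            em α ++ Sum.inl NN.A :: em β1 ++ (rhs' (.app e.1.1) ++
            (em β2 ++ Sum.inl (NN.P X Y e.1.2) :: em γ)) := by
          simp [FF, rhs']
        rw [e5] at this; exact this
      · simp [lhs'] at h7
      · -- in γ
        obtain ⟨γ1, x, γ2, rfl, rfl, hx, rfl⟩ := em_split h7
        have hx' : x = Sum.inl (G.lhs e.1.1) := by
          cases x <;> simp_all [emb, lhs']
        subst hx' h6 h4
        have hR1 : R G (α ++ X :: (β ++ Y :: (γ1 ++ G.rhs e.1.1 ++ γ2))) e.1.2 := by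
          refine R_step h ⟨α ++ X :: (β ++ Y :: γ1), γ2, by simp, by simp, e.2⟩
        have := Inv.main .r0 (Or.inl rfl) α X β Y _ e.1.2 hR1
        have e5 : FF α X β Y (γ1 ++ G.rhs e.1.1 ++ γ2) e.1.2 =
            em α ++ Sum.inl NN.A :: (em β ++ Sum.inl (NN.P X Y e.1.2) :: em γ1) ++
            (rhs' (.app e.1.1) ++ em γ2) := by
          simp [FF, rhs']
        rw [e5] at this; exact this
  | expA e y ys hy α β Y γ h =>
    have : d2 = .r0 := h3
    subst this
    obtain ⟨g1, g2⟩ := at_A h1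
    subst g1 g2
    have hR1 : R G (α ++ y :: ((ys ++ β) ++ Y :: γ)) e.1.2 := by
      refine R_step h ⟨α, β ++ Y :: γ, rfl, ?_, e.2⟩
      change _ = _ ++ (G.rhs e.1.1 ++ _)
      rw [hy]; simp
    have := Inv.main .r0 (Or.inl rfl) α y (ys ++ β) Y γ e.1.2 hR1
    have e5 : FF α y (ys ++ β) Y γ e.1.2 = em α ++ (rhs' (.expA e.1.1) ++
        (em β ++ Sum.inl (NN.P y Y e.1.2) :: em γ)) := by
      simp [FF, rhs', hy]
    rw [e5] at this; exact this
  | finA α X δ r h =>
    have : d2 = .r0 := h3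
    subst this
    have h4 : u1 = em α ∧ u2 = em δ := by
      rcases three h1.symm with ⟨δ', h4, h5⟩ | ⟨h4, -, h5⟩ | ⟨δ', h4, h5⟩
      · exact (not_in_em (emb_ne_A (G := G)) h4).elim
      · exact ⟨h4, h5⟩
      · exact (not_in_em (emb_ne_A (G := G)) h5).elim
    obtain ⟨rfl, rfl⟩ := h4
    have := Inv.done _ r h
    have e5 : em (α ++ X :: δ) = em α ++ (rhs' (.finA X) ++ em δ) := by
      simp [em, rhs']
    rw [e5] at this; exact this
  | done u r h => exact (not_in_em (emb_ne_A (G := G)) h1).elim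

theorem inv_reach {G : PG T} (hG : G.Propagating) {c : List (NN G ⊕ T) × LL G} {l : LL G}
    (h : Relation.ReflTransGen (GG G).Step ([Sum.inl (NN.S : NN G)], l) c) : Inv c := by
  induction h with
  | refl => exact Inv.start l
  | tail _ hs ih => exact inv_step hG ih hs

theorem inv_term {G : PG T} {c : List (NN G ⊕ T) × LL G} (hInv : Inv c) (w : List T)
    (hw : c.1 = w.map Sum.inr) : ∃ r, R G (w.map Sum.inr) r := by
  have hno : ∀ (v1 v2 : List (NN G ⊕ T)) (n : NN G), v1 ++ Sum.inl n :: v2 ≠ w.map Sum.inr := by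
    intro v1 v2 n h
    have : (Sum.inl n : NN G ⊕ T) ∈ w.map Sum.inr := by rw [← h]; simp
    simp at this
  cases hInv with
  | start l => exact (hno [] [] _ hw).elim
  | main l hl α X β Y γ r h => exact (hno _ _ _ hw).elim
  | app e α X β Y γ h => exact (hno _ _ _ hw).elim
  | expA e y ys hy α β Y γ h => exact (hno _ _ _ hw).elim
  | finA α X δ r h => exact (hno _ _ _ hw).elim
  | done u r h =>
    have h1 : em u = w.map Sum.inr := hw
    have h2 : em (w.map Sum.inr : List (G.N ⊕ T)) = em u := by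
      rw [h1]; simp [em, emb, Function.comp_def]
    have h3 := em_inj h2
    exact ⟨r, by rw [h3]; exact h⟩

theorem lang_eq (G : PG T) (hG : G.Propagating) : (GG G).lang = G.lang := by
  ext w
  constructor
  · rintro ⟨l, l', h⟩
    have hInv := inv_reach (G := G) hG h
    obtain ⟨r, p, hp⟩ := inv_term (G := G) hInv w rfl
    exact ⟨p, r, hp⟩
  · rintro ⟨p, q, h⟩
    obtain ⟨hne, hlong⟩ := fwd hG h
    by_cases hlen : 2 ≤ w.length
    · obtain ⟨α, X, β, Y, γ, h1, h2⟩ := hlong (by simpa using hlen)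
      simp only at h1 h2
      have g1 := R'_entry h2 (.fin X Y q) (Entry.fin X Y q)
      have g2 : R' (em α ++ Sum.inl .A :: em (β ++ Y :: γ)) (LL.finA X) :=
        R'_step g1 (em α ++ Sum.inl .A :: em β) (em γ) (by simp [FF, lhs']) (by simp [rhs', em]) rfl
      have g3 : R' (em (α ++ X :: (β ++ Y :: γ))) (LL.r0) :=
        R'_step g2 (em α) (em (β ++ Y :: γ)) (by simp [lhs']) (by simp [rhs', em]) rfl
      rw [← h1] at g3
      obtain ⟨l, hl⟩ := g3
      refine ⟨l, LL.r0, ?_⟩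
      have : em (w.map Sum.inr : List (G.N ⊕ T)) = (w.map Sum.inr : List (NN G ⊕ T)) := by
        simp [em, emb, Function.comp_def]
      rw [this] at hl
      exact hl
    · have hw : w ≠ [] := by
        rintro rfl; exact hne rfl
      obtain ⟨a, rfl⟩ : ∃ a, w = [a] := by
        have : w.length = 1 := by
          have := List.length_pos_iff.mpr hw; omega
        exact List.length_eq_one_iff.mp this
      let l : LL G := .one ⟨a, ⟨p, q, h⟩⟩
      refine ⟨l, LL.r0, Relation.ReflTransGen.single ?_⟩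
      exact mkStep l .r0 [] [] _ _ rfl rfl rfl

end Pool.Agent.V11232.PG
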