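import Pool.Agent.V11232.PG.Def

namespace Pool.Agent.V11232.PG

variable {T : Type}

/-- The overall non-determinism. -/
noncomputable def PG.ond (G : PG T) : ℕ :=
  ∑ᶠ r : G.Ψ, if 2 ≤ (G.succ r).ncard then (G.succ r).ncard else 0

/-- The family `OND(P^{-ε}, n)`, over the terminal alphabet `T`. -/
def OND (n : ℕ) (T : Type) : Set (Language T) :=
  {L | ∃ G : PG T, G.Propagating ∧ G.ond ≤ n ∧ G.lang = L}

end Pool.Agent.V11232.PG
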