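import Pool.Agent.V11232.PG.Ond

namespace Pool.Agent.V11232.PG

variable {T : Type}

/-- Rules with at least two successors. -/
def ND (G : PG T) (r : G.Ψ) : Prop := 2 ≤ (G.succ r).ncard

/-- Edges leaving rules with at least two successors. -/
def XX (G : PG T) : Set (G.Ψ × G.Ψ) := {e | e.2 ∈ G.succ e.1 ∧ ND G e.1}

theorem ond_eq (G : PG T) : G.ond = (XX G).ncard := by
  classical
  have := G.finΨ
  have : Fintype G.Ψ := Fintype.ofFinite _
  unfold PG.ond
  rw [finsum_eq_sum_of_fintype]
  have h1 : (XX G).ncard = ((Finset.univ.filter (fun r : G.Ψ => ND G r)).sigma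
      (fun r => (G.succ r).toFinset)).card := by
    rw [← Set.ncard_coe_finset]
    refine Set.ncard_congr (fun e _ => ⟨e.1, e.2⟩) ?_ ?_ ?_
    · rintro ⟨r, q⟩ ⟨h1, h2⟩
      simp only [Finset.coe_sigma, Set.mem_sigma_iff, Finset.coe_filter, Set.mem_setOf_eq,
        Finset.mem_univ, true_and, Finset.mem_coe, Set.mem_toFinset]
      exact ⟨h2, h1⟩
    · rintro ⟨r, q⟩ ⟨r', q'⟩ _ _ h
      simpa using h
    · rintro ⟨r, q⟩ h
      simp only [Finset.coe_sigma, Set.mem_sigma_iff, Finset.coe_filter, Set.mem_setOf_eq,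
        Finset.mem_univ, true_and, Finset.mem_coe, Set.mem_toFinset] at h
      exact ⟨(r, q), ⟨h.2, h.1⟩, rfl⟩
  rw [h1, Finset.card_sigma, Finset.sum_filter]
  apply Finset.sum_congr rfl
  intro r _
  by_cases h : 2 ≤ (G.succ r).ncard
  · rw [if_pos h, if_pos (show ND G r from h), Set.ncard_eq_toFinset_card']
  · rw [if_neg h, if_neg (show ¬ ND G r from h)]

/-- Applying the rules of a list. -/
inductive App (G : PG T) : List (G.N ⊕ T) → List G.Ψ → List (G.N ⊕ T) → Prop
  | nil (u : List (G.N ⊕ T)) : App G u [] u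
  | cons {u u1 u2 v : List (G.N ⊕ T)} {r : G.Ψ} {rs : List G.Ψ} :
      u = u1 ++ Sum.inl (G.lhs r) :: u2 → App G (u1 ++ (G.rhs r ++ u2)) rs v → App G u (r :: rs) v

theorem app_of_reach {G : PG T} {c d : List (G.N ⊕ T) × G.Ψ}
    (h : Relation.ReflTransGen G.Step c d) :
    ∃ rs, App G c.1 rs d.1 ∧ List.IsChain (fun r q => q ∈ G.succ r) (rs ++ [d.2]) ∧
      (rs ++ [d.2]).head? = some c.2 := by
  induction h using Relation.ReflTransGen.head_induction_on with
  | refl => exact ⟨[], App.nil _, by simp, by simp⟩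
  | @head c c' hs hcd ih =>
    obtain ⟨rs, h1, h2, h3⟩ := ih
    obtain ⟨u1, u2, e1, e2, e3⟩ := hs
    refine ⟨c.2 :: rs, App.cons e1 (by rw [← e2]; exact h1), ?_, by simp⟩
    rw [List.cons_append]
    cases hl : rs ++ [d.2] with
    | nil => simp at hl
    | cons x l =>
      rw [hl] at h2 h3
      simp only [List.head?_cons, Option.some.injEq] at h3
      refine List.IsChain.cons_cons ?_ h2
      rw [h3]; exact e3

theorem app_split {G : PG T} {u v : List (G.N ⊕ T)} {rs rs' : List G.Ψ}
    (h : App G u (rs ++ rs') v) : ∃ x, App G u rs x ∧ App G x rs' v := by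
  induction rs generalizing u with
  | nil => exact ⟨u, App.nil u, h⟩
  | cons r rs ih =>
    rw [List.cons_append] at h
    cases h with
    | cons e h =>
      obtain ⟨x, h1, h2⟩ := ih h
      exact ⟨x, App.cons e h1, h2⟩

theorem app_mem {G : PG T} {u v : List (G.N ⊕ T)} {rs : List G.Ψ} (h : App G u rs v) (a : T) :
    (Sum.inr a ∈ u → Sum.inr a ∈ v) ∧ ∀ r ∈ rs, Sum.inr a ∈ G.rhs r → Sum.inr a ∈ v := by
  induction h with
  | nil u => exact ⟨id, by simp⟩
  | cons e h ih =>
    subst e
    refine ⟨fun ha => ih.1 ?_, ?_⟩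
    · simp only [List.mem_append, List.mem_cons] at ha ⊢
      rcases ha with ha | ha | ha
      · exact Or.inl ha
      · simp at ha
      · exact Or.inr (Or.inr ha)
    · intro r' hr' ha
      rcases List.mem_cons.mp hr' with rfl | hr'
      · exact ih.1 (by simp [ha])
      · exact ih.2 r' hr' ha

/-- The number of nonterminals. -/
def cnt {G : PG T} (u : List (G.N ⊕ T)) : ℤ := (u.countP (fun x => x.isLeft) : ℕ)

theorem cnt_append {G : PG T} (u v : List (G.N ⊕ T)) : cnt (u ++ v) = cnt u + cnt v := by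
  simp [cnt]

theorem app_cnt {G : PG T} {u v : List (G.N ⊕ T)} {rs : List G.Ψ} (h : App G u rs v) :
    cnt v = cnt u + (rs.map (fun r => cnt (G.rhs r) - 1)).sum ∧
    (v.length : ℤ) = u.length + (rs.map (fun r => ((G.rhs r).length : ℤ) - 1)).sum := by
  induction h with
  | nil u => simp
  | cons e h ih =>
    rename_i u u1 u2 v r rs
    have h1 : cnt (Sum.inl (G.lhs r) :: u2 : List (G.N ⊕ T)) = 1 + cnt u2 := by
      simp [cnt]; ring
    constructor
    · rw [ih.1, e, cnt_append, cnt_append, cnt_append, h1, List.map_cons, List.sum_cons]; ring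
    · rw [ih.2, e, List.map_cons, List.sum_cons]; simp; ring

theorem cnt_terminal {G : PG T} (w : List T) : cnt (w.map Sum.inr : List (G.N ⊕ T)) = 0 := by
  induction w with
  | nil => rfl
  | cons a w ih => simpa [cnt] using ih

theorem cnt_pos {G : PG T} {u v : List (G.N ⊕ T)} {r : G.Ψ} {rs : List G.Ψ}
    (h : App G u (r :: rs) v) : 1 ≤ cnt u := by
  cases h with
  | cons e h =>
    rename_i u1 u2
    rw [e, cnt_append]
    have h1 : cnt (Sum.inl (G.lhs r) :: u2 : List (G.N ⊕ T)) = 1 + cnt u2 := by
      simp [cnt]; ring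
    have h2 : 0 ≤ cnt u1 := by simp [cnt]
    have h3 : 0 ≤ cnt u2 := by simp [cnt]
    omega

/-- Terminating rule lists are prefix-free, and determine the length of the word. -/
theorem same_len {G : PG T} {u : List (G.N ⊕ T)} {rs rs' : List G.Ψ} {w w' : List T}
    (h : App G u rs (w.map Sum.inr)) (h' : App G u (rs ++ rs') (w'.map Sum.inr)) :
    w.length = w'.length := by
  obtain ⟨x, h1, h2⟩ := app_split h'
  cases rs' with
  | nil =>
    have e1 := (app_cnt h).2
    have e2 := (app_cnt h').2
    rw [List.append_nil, ← e1] at e2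
    simpa using e2.symm
  | cons r rs' =>
    exfalso
    have e1 := (app_cnt h).1
    have e2 := (app_cnt h1).1
    have e3 := cnt_pos h2
    rw [e2, ← e1, cnt_terminal] at e3
    omega

/-- Lists following a function. -/
def it {W : Type} (f : W → W) (q : W) (m : ℕ) : List W := (List.range m).map (fun j => f^[j] q)

theorem it_succ {W : Type} (f : W → W) (q : W) (m : ℕ) : it f q (m + 1) = q :: it f (f q) m := by
  simp only [it, List.range_succ_eq_map, List.map_cons, List.map_map]
  rfl

theorem it_add {W : Type} (f : W → W) (q : W) (m k : ℕ) : ∃ l, it f q (m + k) = it f q m ++ l := by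
  refine ⟨((List.range k).map (fun j => f^[m + j] q)), ?_⟩
  simp only [it, List.range_add, List.map_append, List.map_map]
  rfl

theorem chain_it {W : Type} (f : W → W) (l : List W) : ∀ q : W,
    List.IsChain (fun r q => q = f r) (q :: l) → q :: l = it f q (l.length + 1) := by
  induction l with
  | nil => intro q _; simp [it]
  | cons x l ih =>
    intro q h
    rw [List.isChain_cons_cons] at h
    have h1 := ih x h.2
    rw [it_succ, ← h.1]
    exact congrArg (List.cons q) h1

/-- The words derived along the paths of a function have boundedly many lengths. -/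
theorem finite_lengths {G : PG T} (f : G.Ψ → G.Ψ) (a : T)
    (h : ∀ k, ∃ rs, App G [Sum.inl G.S] rs ((List.replicate (k + 1) a).map Sum.inr) ∧
      List.IsChain (fun r q => q = f r) rs) : False := by
  have := G.finΨ
  choose rs h1 h2 using h
  have hne : ∀ k, ∃ q l, rs k = q :: l := by
    intro k
    cases hk : rs k with
    | nil =>
      exfalso
      have := h1 k
      rw [hk] at this
      have e := (app_cnt this).1
      rw [cnt_terminal] at e
      simp [cnt] at e
    | cons q l => exact ⟨q, l, rfl⟩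
  choose q l hq using hne
  obtain ⟨k, k', hkk, hqq⟩ := Finite.exists_ne_map_eq_of_infinite q
  wlog hlt : (l k).length ≤ (l k').length generalizing k k'
  · exact this k' k hkk.symm hqq.symm (by omega)
  have e1 : rs k = it f (q k) ((l k).length + 1) := by
    rw [hq]; apply chain_it; rw [← hq]; exact h2 k
  have e2 : rs k' = it f (q k) ((l k').length + 1) := by
    rw [hq, hqq]; apply chain_it; rw [← hq]; exact h2 k'
  obtain ⟨t, ht⟩ := it_add f (q k) ((l k).length + 1) ((l k').length - (l k).length)
  have e3 : (l k).length + 1 + ((l k').length - (l k).length) = (l k').length + 1 := by omega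
  rw [e3, ← e2, ← e1] at ht
  have h3 := h1 k'
  rw [ht] at h3
  have := same_len (h1 k) h3
  simp at this
  omega

/-- The language `⋃ᵢ {aᵢ}⁺`. -/
def Ln (n : ℕ) : Language (Fin n) := {w | ∃ (i : Fin n) (k : ℕ), w = List.replicate (k + 1) i}

/-- A derivation of a word over the letter `i`. -/
def Der {n : ℕ} (G : PG (Fin n)) (i : Fin n) (rs : List G.Ψ) : Prop :=
  (∃ k, App G [Sum.inl G.S] rs ((List.replicate (k + 1) i).map Sum.inr)) ∧
    List.IsChain (fun r q => q ∈ G.succ r) rs

section lower

variable {n : ℕ} {G : PG (Fin n)}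

theorem der_letter {i j : Fin n} {rs : List G.Ψ} (h : Der G i rs) {r : G.Ψ} (hr : r ∈ rs)
    (hj : Sum.inr j ∈ G.rhs r) : j = i := by
  obtain ⟨⟨k, h⟩, -⟩ := h
  have := (app_mem h j).2 r hr hj
  simp only [List.mem_map, Sum.inr.injEq, exists_eq_right] at this
  exact List.eq_of_mem_replicate this

theorem der_last (hG : G.Propagating) {i : Fin n} {rs : List G.Ψ} {r : G.Ψ}
    (h : Der G i (rs ++ [r])) : Sum.inr i ∈ G.rhs r := by
  obtain ⟨⟨k, h⟩, -⟩ := h
  obtain ⟨x, -, h2⟩ := app_split h
  cases h2 with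
  | cons e h3 =>
    rename_i u1 u2
    generalize hv : (List.map Sum.inr (List.replicate (k + 1) i) : List (G.N ⊕ Fin n)) = v at h3
    cases h3 with
    | nil =>
      cases hr : G.rhs r with
      | nil => exact absurd hr (hG r)
      | cons y ys =>
        have hy : y ∈ (List.map Sum.inr (List.replicate (k + 1) i) : List (G.N ⊕ Fin n)) := by
          rw [hv, hr]; simp
        simp only [List.mem_map] at hy
        obtain ⟨j, hj, rfl⟩ := hy
        rw [List.eq_of_mem_replicate hj]; simp

open Classical in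
/-- The unique successor. -/
noncomputable def nx (G : PG (Fin n)) (r : G.Ψ) : G.Ψ :=
  if h : (G.succ r).Nonempty then h.choose else r

theorem nx_eq {r q : G.Ψ} (hq : q ∈ G.succ r) (hr : ¬ ND G r) : q = nx G r := by
  have := G.finΨ
  have h : (G.succ r).Nonempty := ⟨q, hq⟩
  rw [nx, dif_pos h]
  have h1 : (G.succ r).ncard ≤ 1 := by unfold ND at hr; omega
  exact (Set.ncard_le_one (Set.toFinite _)).mp h1 q hq _ h.choose_spec

/-- A segment starting at `q`. -/
theorem seg (l : List G.Ψ) : ∀ q : G.Ψ, List.IsChain (fun r q => q ∈ G.succ r) (q :: l) →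
    ∃ m post, q :: l = it (nx G) q (m + 1) ++ post ∧ (∀ j < m, ¬ ND G ((nx G)^[j] q)) ∧
      (ND G ((nx G)^[m] q) ∨ post = []) := by
  induction l with
  | nil => intro q _; exact ⟨0, [], by simp [it], by simp, Or.inr rfl⟩
  | cons x l ih =>
    intro q h
    rw [List.isChain_cons_cons] at h
    by_cases hq : ND G q
    · exact ⟨0, x :: l, by simp [it], by simp, Or.inl hq⟩
    · obtain ⟨m, post, h1, h2, h3⟩ := ih x h.2
      have hx : x = nx G q := nx_eq h.1 hq
      subst hx
      refine ⟨m + 1, post, by rw [it_succ, List.cons_append, ← h1], ?_, ?_⟩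
      · intro j hj
        cases j with
        | zero => exact hq
        | succ j => exact h2 j (by omega)
      · exact h3

/-- The last edge. -/
theorem last_edge (rs : List G.Ψ) : (∀ r ∈ rs.dropLast, ¬ ND G r) ∨
    ∃ pre r q l, rs = pre ++ r :: q :: l ∧ ND G r ∧ ∀ x ∈ (q :: l).dropLast, ¬ ND G x := by
  induction rs with
  | nil => left; simp
  | cons x xs ih =>
    rcases ih with h | ⟨pre, r, q, l, h1, h2, h3⟩
    · cases xs with
      | nil => left; simp
      | cons q l =>
        by_cases hx : ND G x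
        · exact Or.inr ⟨[], x, q, l, rfl, hx, h⟩
        · left
          intro r hr
          rw [List.dropLast_cons_cons] at hr
          rcases List.mem_cons.mp hr with rfl | hr
          · exact hx
          · exact h r hr
    · exact Or.inr ⟨x :: pre, r, q, l, by rw [h1]; rfl, h2, h3⟩

/-- `e` is used as the last edge in a derivation of a word over `i`. -/
def LastE (G : PG (Fin n)) (i : Fin n) (e : G.Ψ × G.Ψ) : Prop :=
  ∃ pre l, Der G i (pre ++ e.1 :: e.2 :: l) ∧ ND G e.1 ∧ ∀ x ∈ (e.2 :: l).dropLast, ¬ ND G x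

/-- `e` is used in a derivation of a word over `i`. -/
def UsedE (G : PG (Fin n)) (i : Fin n) (e : G.Ψ × G.Ψ) : Prop :=
  ∃ pre l, Der G i (pre ++ e.1 :: e.2 :: l) ∧ ND G e.1

theorem chain_right {W : Type} {R : W → W → Prop} {a b : List W} (h : List.IsChain R (a ++ b)) :
    List.IsChain R b := (List.isChain_append.mp h).2.1

theorem chain_nx {l : List G.Ψ} : ∀ {q : G.Ψ}, List.IsChain (fun r q => q ∈ G.succ r) (q :: l) →
    (∀ x ∈ (q :: l).dropLast, ¬ ND G x) → List.IsChain (fun r q => q = nx G r) (q :: l) := by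
  induction l with
  | nil => intro q _ _; simp
  | cons x l ih =>
    intro q h h2
    rw [List.isChain_cons_cons] at h ⊢
    refine ⟨nx_eq h.1 (h2 q (by simp)), ih h.2 ?_⟩
    intro y hy
    exact h2 y (by rw [List.dropLast_cons_cons]; exact List.mem_cons_of_mem _ hy)

theorem it_mem {W : Type} (f : W → W) (q : W) (m j : ℕ) (h : j < m) : f^[j] q ∈ it f q m :=
  List.mem_map.mpr ⟨j, List.mem_range.mpr h, rfl⟩

theorem it_snoc {W : Type} (f : W → W) (q : W) (m : ℕ) :
    it f q (m + 1) = it f q m ++ [f^[m] q] := by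
  simp [it, List.range_succ]

theorem dropLast_it {W : Type} (f : W → W) (q : W) (m : ℕ) :
    (it f q (m + 1)).dropLast = it f q m := by
  rw [it_snoc, List.dropLast_concat]

theorem edge_unique (hG : G.Propagating) {i j : Fin n} {e : G.Ψ × G.Ψ} (h1 : UsedE G i e)
    (h2 : LastE G j e) : i = j := by
  obtain ⟨pre1, l1, d1, -⟩ := h1
  obtain ⟨pre2, l2, d2, -, hlast⟩ := h2
  have c1 : List.IsChain (fun r q => q ∈ G.succ r) (e.2 :: l1) := by
    have := d1.2
    have h3 : pre1 ++ e.1 :: e.2 :: l1 = (pre1 ++ [e.1]) ++ e.2 :: l1 := by simp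
    rw [h3] at this; exact chain_right this
  have c2 : List.IsChain (fun r q => q ∈ G.succ r) (e.2 :: l2) := by
    have := d2.2
    have h3 : pre2 ++ e.1 :: e.2 :: l2 = (pre2 ++ [e.1]) ++ e.2 :: l2 := by simp
    rw [h3] at this; exact chain_right this
  obtain ⟨m, post, g1, g2, g3⟩ := seg l1 e.2 c1
  have g4 := chain_it (nx G) l2 e.2 (chain_nx c2 hlast)
  set m' := l2.length with hm'
  -- the last rule of the second derivation introduces `j`
  have k2 : Sum.inr j ∈ G.rhs ((nx G)^[m'] e.2) := by
    apply der_last hG (rs := pre2 ++ e.1 :: it (nx G) e.2 m')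
    have : pre2 ++ e.1 :: it (nx G) e.2 m' ++ [(nx G)^[m'] e.2] = pre2 ++ e.1 :: e.2 :: l2 := by
      rw [g4, it_snoc]; simp
    rw [this]; exact d2
  by_cases hmm : m' ≤ m
  · refine (der_letter d1 (r := (nx G)^[m'] e.2) ?_ k2).symm
    rw [g1]
    have := it_mem (nx G) e.2 (m + 1) m' (by omega)
    simp [this]
  · have hnd : ¬ ND G ((nx G)^[m] e.2) := by
      apply hlast
      rw [g4, dropLast_it]
      exact it_mem _ _ _ _ (by omega)
    have hpost : post = [] := by
      rcases g3 with g3 | g3
      · exact absurd g3 hnd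
      · exact g3
    subst hpost
    have k1 : Sum.inr i ∈ G.rhs ((nx G)^[m] e.2) := by
      apply der_last hG (rs := pre1 ++ e.1 :: it (nx G) e.2 m)
      have : pre1 ++ e.1 :: it (nx G) e.2 m ++ [(nx G)^[m] e.2] = pre1 ++ e.1 :: e.2 :: l1 := by
        rw [g1, it_snoc]; simp
      rw [this]; exact d1
    refine der_letter d2 (r := (nx G)^[m] e.2) ?_ k1
    rw [g4]
    have := it_mem (nx G) e.2 (m' + 1) m (by omega)
    simp [this]

theorem exists_der (hL : G.lang = Ln n) (i : Fin n) (k : ℕ) :
    ∃ rs, App G [Sum.inl G.S] rs ((List.replicate (k + 1) i).map Sum.inr) ∧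
      List.IsChain (fun r q => q ∈ G.succ r) rs := by
  have h : List.replicate (k + 1) i ∈ G.lang := by rw [hL]; exact ⟨i, k, rfl⟩
  obtain ⟨p, q, h⟩ := h
  obtain ⟨rs, h1, h2, -⟩ := app_of_reach h
  exact ⟨rs, h1, (List.isChain_append.mp h2).1⟩

theorem exists_last (hL : G.lang = Ln n) (i : Fin n) : ∃ e, LastE G i e := by
  by_contra hcon
  push Not at hcon
  apply finite_lengths (G := G) (nx G) i
  intro k
  obtain ⟨rs, h1, h2⟩ := exists_der hL i k
  refine ⟨rs, h1, ?_⟩
  rcases last_edge rs with h | ⟨pre, r, q, l, g1, g2, g3⟩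
  · cases rs with
    | nil => simp
    | cons q l => exact chain_nx h2 h
  · exact absurd ⟨pre, l, ⟨⟨k, by rw [← g1]; exact h1⟩, by rw [← g1]; exact h2⟩, g2, g3⟩
      (hcon (r, q))

theorem lower (hG : G.Propagating) (hn : 1 ≤ n) (hL : G.lang = Ln n) : n + 1 ≤ G.ond := by
  classical
  have := G.finΨ
  rw [ond_eq]
  choose e he using exists_last (G := G) hL
  have hused : ∀ i, UsedE G i (e i) := fun i => by
    obtain ⟨pre, l, h1, h2, -⟩ := he i
    exact ⟨pre, l, h1, h2⟩
  have hinj : Function.Injective e := by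
    intro i j h
    have h1 := hused i
    rw [h] at h1
    exact edge_unique hG h1 (he j)
  have hmem : ∀ i e', UsedE G i e' → e' ∈ XX G := by
    rintro i e' ⟨pre, l, ⟨-, h1⟩, h2⟩
    refine ⟨?_, h2⟩
    have := chain_right h1
    rw [List.isChain_cons_cons] at this
    exact this.1
  have hrange : Set.range e ⊆ XX G := by
    rintro _ ⟨i, rfl⟩; exact hmem i _ (hused i)
  have hcard : (Set.range e).ncard = n := by
    rw [← Set.image_univ, Set.ncard_image_of_injective _ hinj, Set.ncard_univ]
    simp
  by_contra hcon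
  have hXX : (XX G).Finite := Set.toFinite _
  have heq : Set.range e = XX G := by
    apply Set.eq_of_subset_of_ncard_le hrange _ hXX
    rw [hcard]; omega
  -- every derivation over a letter follows one function
  let i : Fin n := ⟨0, hn⟩
  apply finite_lengths (G := G) (fun r => if ND G r then (e i).2 else nx G r) i
  intro k
  obtain ⟨rs, h1, h2⟩ := exists_der hL i k
  refine ⟨rs, h1, ?_⟩
  rw [List.isChain_iff_forall_rel_of_append_cons_cons] at h2 ⊢
  intro r q pre l hrs
  by_cases hr : ND G r
  · rw [if_pos hr]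
    have hD : Der G i (pre ++ r :: q :: l) :=
      ⟨⟨k, by rw [← hrs]; exact h1⟩, by
        rw [← hrs]; exact List.isChain_iff_forall_rel_of_append_cons_cons.mpr h2⟩
    have hu : UsedE G i (r, q) := ⟨pre, l, hD, hr⟩
    have hx : (r, q) ∈ Set.range e := by rw [heq]; exact hmem i _ hu
    obtain ⟨j, hj⟩ := hx
    have hij : i = j := by
      have h3 := he j
      rw [hj] at h3
      exact edge_unique hG hu h3
    rw [hij, hj]
  · rw [if_neg hr]
    exact nx_eq (h2 hrs) hr

end lower

end Pool.Agent.V11232.PG
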