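import Pool.Agent.V11232.PG.OndMain

namespace Pool.Agent.V11232.PG

open Relation

/-- Right-hand sides of the grammar for `⋃ᵢ {aᵢ}⁺`. -/
def gnR {n : ℕ} : Option (Fin n) → List (Unit ⊕ Fin n)
  | none => [Sum.inl (), Sum.inl ()]
  | some i => [Sum.inr i]

/-- Success fields of the grammar for `⋃ᵢ {aᵢ}⁺`. -/
def gnS {n : ℕ} : Option (Fin n) → Set (Option (Fin n))
  | none => Set.univ
  | some i => {some i}

/-- The grammar for `⋃ᵢ {aᵢ}⁺`. -/
def gn (n : ℕ) : PG (Fin n) where
  N := Unit
  Ψ := Option (Fin n)
  finN := inferInstance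
  finΨ := inferInstance
  lhs _ := ()
  rhs := gnR
  succ := gnS
  S := ()

theorem gn_propagating (n : ℕ) : (gn n).Propagating := by
  intro r
  cases r with
  | none => exact List.cons_ne_nil _ _
  | some i => exact List.cons_ne_nil _ _

theorem gn_ond (n : ℕ) : (gn n).ond ≤ n + 1 := by
  change (∑ᶠ r : Option (Fin n), if 2 ≤ (gnS r).ncard then (gnS r).ncard else 0) ≤ n + 1
  rw [finsum_eq_single _ (none : Option (Fin n))]
  · split_ifs
    · have h1 : gnS (none : Option (Fin n)) = Set.univ := rfl
      rw [h1, Set.ncard_univ]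
      simp
    · omega
  · intro r hr
    cases r with
    | none => exact absurd rfl hr
    | some i =>
      have h1 : gnS (some i) = {some i} := rfl
      rw [h1, Set.ncard_singleton]; simp

/-- The derivation relation of the grammar. -/
def Stp (n : ℕ) (c d : List (Unit ⊕ Fin n) × Option (Fin n)) : Prop :=
  ∃ u1 u2, c.1 = u1 ++ Sum.inl () :: u2 ∧ d.1 = u1 ++ (gnR c.2 ++ u2) ∧ d.2 ∈ gnS c.2

theorem gn_grow (n k : ℕ) : ReflTransGen (Stp n) ([Sum.inl ()], none)
    (List.replicate (k + 1) (Sum.inl ()), none) := by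
  induction k with
  | zero => exact ReflTransGen.refl
  | succ k ih =>
    refine ih.tail ?_
    exact ⟨[], List.replicate k (Sum.inl ()), rfl, rfl, Set.mem_univ _⟩

theorem gn_ready (n k : ℕ) (i : Fin n) : ∃ p, ReflTransGen (Stp n) ([Sum.inl ()], p)
    (List.replicate (k + 1) (Sum.inl ()), some i) := by
  cases k with
  | zero => exact ⟨some i, ReflTransGen.refl⟩
  | succ k =>
    refine ⟨none, (gn_grow n k).tail ?_⟩
    exact ⟨[], List.replicate k (Sum.inl ()), rfl, rfl, Set.mem_univ _⟩

theorem gn_finish (n k : ℕ) (i : Fin n) : ∀ m, ReflTransGen (Stp n)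
    (List.replicate m (Sum.inr i) ++ List.replicate k (Sum.inl ()), some i)
    (List.replicate (m + k) (Sum.inr i), some i) := by
  induction k with
  | zero =>
    intro m
    rw [Nat.add_zero, List.replicate_zero, List.append_nil]
  | succ k ih =>
    intro m
    have h1 := ih (m + 1)
    have h2 : Stp n (List.replicate m (Sum.inr i) ++ List.replicate (k + 1) (Sum.inl ()), some i)
        (List.replicate m (Sum.inr i) ++ (gnR (some i) ++ List.replicate k (Sum.inl ())), some i) :=
      ⟨List.replicate m (Sum.inr i), List.replicate k (Sum.inl ()), rfl, rfl, rfl⟩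
    have e1 : List.replicate (m + 1) (Sum.inr i : Unit ⊕ Fin n) ++ List.replicate k (Sum.inl ()) =
        List.replicate m (Sum.inr i) ++ (gnR (some i) ++ List.replicate k (Sum.inl ())) := by
      rw [List.replicate_succ', List.append_assoc]; rfl
    have e2 : m + 1 + k = m + (k + 1) := by ring
    rw [e2, e1] at h1
    exact ReflTransGen.head h2 h1

theorem gn_inv (n : ℕ) (p : Option (Fin n)) {c : List (Unit ⊕ Fin n) × Option (Fin n)}
    (h : ReflTransGen (Stp n) ([Sum.inl ()], p) c) : c.1 ≠ [] ∧
      ((∀ x ∈ c.1, x = Sum.inl ()) ∨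
        ∃ i, c.2 = some i ∧ ∀ x ∈ c.1, x = Sum.inl () ∨ x = Sum.inr i) := by
  induction h with
  | refl =>
    refine ⟨by simp, Or.inl ?_⟩
    intro x hx
    exact List.mem_singleton.mp hx
  | @tail c d hcd hs ih =>
    obtain ⟨u1, u2, h1, h2, h3⟩ := hs
    cases hc : c.2 with
    | none =>
      rw [hc] at h2
      have h2' : d.1 = u1 ++ ([Sum.inl (), Sum.inl ()] ++ u2) := h2
      refine ⟨by rw [h2']; simp, Or.inl ?_⟩
      rcases ih.2 with h4 | ⟨i, h4, -⟩
      · intro x hx
        rw [h2'] at hx
        rw [h1] at h4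
        simp only [List.mem_append, List.mem_cons, List.not_mem_nil, or_false] at hx h4
        rcases hx with hx | (hx | hx) | hx
        · exact h4 x (Or.inl hx)
        · exact hx
        · exact hx
        · exact h4 x (Or.inr (Or.inr hx))
      · rw [hc] at h4; simp at h4
    | some i =>
      rw [hc] at h2 h3
      have h2' : d.1 = u1 ++ ([Sum.inr i] ++ u2) := h2
      have h3' : d.2 = some i := h3
      refine ⟨by rw [h2']; simp, Or.inr ⟨i, h3', ?_⟩⟩
      have h4 : ∀ x ∈ c.1, x = Sum.inl () ∨ x = Sum.inr i := by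
        rcases ih.2 with h4 | ⟨j, h4, h5⟩
        · exact fun x hx => Or.inl (h4 x hx)
        · rw [hc] at h4
          have : j = i := by simpa using h4.symm
          subst this; exact h5
      intro x hx
      rw [h2'] at hx
      rw [h1] at h4
      simp only [List.mem_append, List.mem_cons, List.not_mem_nil, or_false] at hx h4
      rcases hx with hx | hx | hx
      · exact h4 x (Or.inl hx)
      · exact Or.inr hx
      · exact h4 x (Or.inr (Or.inr hx))

theorem gn_lang (n : ℕ) : (gn n).lang = Ln n := by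
  ext w
  constructor
  · rintro ⟨p, q, h⟩
    obtain ⟨h1, h2⟩ := gn_inv n p (c := (w.map Sum.inr, q)) h
    cases w with
    | nil => exact absurd rfl h1
    | cons a w =>
      rcases h2 with h2 | ⟨i, -, h2⟩
      · have := h2 (Sum.inr a) List.mem_cons_self
        simp at this
      · refine ⟨i, w.length, ?_⟩
        rw [List.eq_replicate_iff]
        refine ⟨rfl, fun b hb => ?_⟩
        have := h2 (Sum.inr b) (List.mem_map.mpr ⟨b, hb, rfl⟩)
        simpa using this
  · rintro ⟨i, k, rfl⟩
    obtain ⟨p, hp⟩ := gn_ready n k i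
    have h2 := gn_finish n (k + 1) i 0
    rw [Nat.zero_add] at h2
    have h3 := hp.trans h2
    rw [← List.map_replicate] at h3
    exact ⟨p, some i, h3⟩

end Pool.Agent.V11232.PG
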